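import Pool.Agent.W492.SP.Main

/-!
# Splitting of morphisms of Chow motives, hom = num and conservativity
-/

set_option linter.unusedSectionVars false

open CategoryTheory Limits MonoidalCategory Triangulated Pretriangulated

namespace Pool.Agent.Results.MP_a147f7_ag.SplittingCriterion

open Pool.Agent.W492.KC Pool.Agent.W492.SP

universe v u v' u'

theorem result {T : Type u} [Category.{v} T] [HasZeroObject T] [HasShift T ℤ] [Preadditive T]
    [∀ n : ℤ, (shiftFunctor T n).Additive] [Pretriangulated T] [IsTriangulated T]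
    [MonoidalCategory T] [SymmetricCategory T] [RightRigidCategory T] [MonoidalPreadditive T]
    {𝒜 : Type u'} [Category.{v'} 𝒜] [Abelian 𝒜] (H : T ⥤ 𝒜) [H.IsHomological]
    (W : ℤ → ObjectProperty 𝒜) (𝒞 : ObjectProperty T)
    {F : Type} [Field F] [CharZero F] [Linear F T] [MonoidalLinear F T]
    (hS : Setup H W 𝒞 F) :
    List.TFAE [
      Splitting H 𝒞,
      Conservative H ∧ HomEqNum H 𝒞,
      Quasi H 𝒞 ∧ HomEqNum H 𝒞] :=
  splitting_tfae hS

end Pool.Agent.Results.MP_a147f7_ag.SplittingCriterion
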